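import Pool.Agent.H78.OX.Targets

/-!
# COX. Formulas do not see the correction strings
-/

set_option autoImplicit false

namespace Pool.Agent.H16.OX

open Finset Filter Pool.Agent.H6.NB Pool.Agent.H70.OQ Pool.Agent.H70.EH Pool.Agent.H78.XQ
open Pool.Agent.H78.OX

theorem cox (hHW2 : T_HW2) (hWTX : T_WTX) : T_COX := by
  intro s b P S D w f hs hg hw hf
  obtain ⟨h1, h2, -⟩ := hWTX s b P hs hg
  have hcard : Fintype.card ((Fin (wlx s) → Bool)) = 2 ^ wlx s := by
    rw [Fintype.card_fun, Fintype.card_bool, Fintype.card_fin]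
  have hcard' : (Fintype.card ((Fin (wlx s) → Bool)) : ℝ) = 2 ^ wlx s := by
    rw [hcard]
    push_cast
    rfl
  have hδ : 0 ≤ dvx s := by
    unfold dvx
    exact div_nonneg (Nat.cast_nonneg _) (pow_nonneg (by norm_num) _)
  have h3 := hHW2 (Fin (wlx s) → Bool) S D w (wtx s b P) (dvx s) f hw hδ hf (by rw [hcard]; exact h1)
    (by rw [hcard']; exact h2)
  rw [hcard'] at h3
  exact h3

end Pool.Agent.H16.OX
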